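import Pool.Agent.Lib.MP_efc1da_coA.Mxa
import Pool.Agent.Lib.MP_efc1da_coA.Sza
import Pool.Agent.Lib.MP_efc1da_coA.Hta

/-!
# Lower bound for deleted vertices: the kernel

If the degrees of the family `F` satisfy the bound `Bd`, there is a set `P` of `O(a)` points such that
every set of at most `a` points outside `P` is avoided by many members.
-/

set_option autoImplicit false

namespace Pool.Agent.EfcD

open Pool.Agent.Efc Pool.Agent.EfcA

theorem ker {α : Type} [Fintype α] [DecidableEq α] (k : ℕ) (F : Finset (Finset α)) (C : ℝ)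
    (a s : ℕ) (hC : 1 ≤ C) (ha : 1 ≤ a) (hs : Real.exp 2 * C * (2 * a) ≤ s) (hsk : s ≤ k)
    (hU : Unif k F) (hF : F.Nonempty) (hBd : Bd C F.card F) :
    ∃ P : Finset α, P.card = s ∧ (∀ x ∈ P, ∃ A ∈ F, x ∈ A) ∧
      ∀ B : Finset α, B.card ≤ a → Disjoint B P →
        F.card ≤ 2 * (2 * a) ^ s * (F.filter fun A => Disjoint A B).card := by
  have hFc : (0 : ℝ) < F.card := by exact_mod_cast Finset.card_pos.2 hF
  have ha' : (1 : ℝ) ≤ a := by exact_mod_cast ha
  have hr : (0 : ℝ) < 2 * a := by linarith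
  obtain ⟨S, hS1, hS2, hS3⟩ := stmtMxa α (2 * a : ℝ) F hr hF
  have hSs : S.card ≤ s := by
    by_contra hcon
    push Not at hcon
    have h1 : Real.exp 2 * C * (2 * a) < S.card :=
      lt_of_le_of_lt hs (by exact_mod_cast hcon)
    have h2 := stmtSza α F C F.card (2 * a : ℝ) S hC hFc hr hBd h1
    have h3 : (F.card : ℝ) ≤ Real.exp (-(2 * (S.card : ℝ))) * F.card := hS2.trans h2
    have h4 : Real.exp (-(2 * (S.card : ℝ))) < 1 := by
      rw [Real.exp_lt_one_iff]
      have : (0 : ℝ) < S.card := by exact_mod_cast (show 0 < S.card by omega)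
      linarith
    nlinarith
  obtain ⟨A0, hA0⟩ := hS1
  unfold up at hA0
  rw [Finset.mem_filter] at hA0
  set supp : Finset α := F.biUnion id with hsupp
  have hmem : ∀ x, x ∈ supp ↔ ∃ A ∈ F, x ∈ A := fun x => by
    rw [hsupp, Finset.mem_biUnion]
    rfl
  have h5 : S ⊆ supp := fun z hz => (hmem z).2 ⟨A0, hA0.1, hA0.2 hz⟩
  have h6 : s ≤ supp.card := by
    refine hsk.trans ?_
    rw [← hU A0 hA0.1]
    exact Finset.card_le_card fun z hz => (hmem z).2 ⟨A0, hA0.1, hz⟩
  obtain ⟨P, hP1, hP2, hP3⟩ := Finset.exists_subsuperset_card_eq h5 hSs h6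
  refine ⟨P, hP3, fun x hx => (hmem x).1 (hP2 hx), fun B hBa hBP => ?_⟩
  have h7 := stmtHta α (up F S) S B (2 * a : ℝ) hr hS3 (Finset.disjoint_of_subset_right hP1 hBP)
    (by
      have : (B.card : ℝ) ≤ a := by exact_mod_cast hBa
      linarith)
  have h8 : (((up F S).filter fun A => Disjoint A B).card : ℝ) ≤
      ((F.filter fun A => Disjoint A B).card : ℝ) := by
    have : ((up F S).filter fun A => Disjoint A B).card ≤ (F.filter fun A => Disjoint A B).card :=
      Finset.card_le_card (Finset.filter_subset_filter _ (Finset.filter_subset _ _))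
    exact_mod_cast this
  have h9 : (2 * a : ℝ) ^ S.card ≤ (2 * a) ^ s := pow_le_pow_right₀ (by linarith) hSs
  have h10 : (F.card : ℝ) ≤ 2 * (2 * a) ^ s * ((F.filter fun A => Disjoint A B).card : ℝ) := by
    calc (F.card : ℝ) ≤ (2 * a) ^ S.card * (up F S).card := hS2
      _ ≤ (2 * a) ^ s * (2 * ((F.filter fun A => Disjoint A B).card : ℝ)) := by
          refine mul_le_mul h9 (by linarith) (Nat.cast_nonneg _) (by positivity)
      _ = _ := by ring
  exact_mod_cast h10

end Pool.Agent.EfcD
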