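import Mathlib

/-!
# Lower bound for deleted vertices: a maximal inequality
-/

set_option autoImplicit false

namespace Pool.Agent.EfcD

open Classical in
/-- The number of elements `i` of `(m, n]` with `p i`. -/
noncomputable def cnt (p : ℕ → Prop) (m n : ℕ) : ℕ := ((Finset.Ioc m n).filter p).card

/-- There is a window of length `t` which ends in `k` in which at least half of the elements have the
property `p`. -/
def Exc (p : ℕ → Prop) (k : ℕ) : Prop := ∃ t, 1 ≤ t ∧ t ≤ k ∧ t ≤ 2 * cnt p (k - t) k

open Classical in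
/-- The one-sided maximal inequality. -/
theorem maximal (p : ℕ → Prop) (n : ℕ) :
    ((Finset.Ioc 0 n).filter (Exc p)).card ≤ 2 * cnt p 0 n := by
  induction n using Nat.strong_induction_on with
  | _ n ih =>
    rcases Nat.eq_zero_or_pos n with h0 | h0
    · subst h0
      simp
    have hsplit : ∀ m, m ≤ n → cnt p 0 n = cnt p 0 m + cnt p m n := by
      intro m hm
      unfold cnt
      rw [← Finset.card_union_of_disjoint, ← Finset.filter_union,
        Finset.Ioc_union_Ioc_eq_Ioc (Nat.zero_le m) hm]
      refine Finset.disjoint_filter_filter ?_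
      rw [Finset.disjoint_left]
      intro i hi hi'
      rw [Finset.mem_Ioc] at hi hi'
      omega
    by_cases hE : Exc p n
    · obtain ⟨t, ht1, htn, ht⟩ := hE
      have h1 := ih (n - t) (by omega)
      have h2 : (Finset.Ioc 0 n).filter (Exc p) ⊆
          (Finset.Ioc 0 (n - t)).filter (Exc p) ∪ Finset.Ioc (n - t) n := by
        intro i hi
        rw [Finset.mem_filter, Finset.mem_Ioc] at hi
        rw [Finset.mem_union, Finset.mem_filter, Finset.mem_Ioc, Finset.mem_Ioc]
        by_cases h : i ≤ n - t
        · exact Or.inl ⟨⟨hi.1.1, h⟩, hi.2⟩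
        · exact Or.inr ⟨by omega, hi.1.2⟩
      have h3 := (Finset.card_le_card h2).trans (Finset.card_union_le _ _)
      rw [Nat.card_Ioc] at h3
      rw [hsplit (n - t) (Nat.sub_le n t)]
      omega
    · have h1 := ih (n - 1) (by omega)
      have h2 : (Finset.Ioc 0 n).filter (Exc p) ⊆ (Finset.Ioc 0 (n - 1)).filter (Exc p) := by
        intro i hi
        rw [Finset.mem_filter, Finset.mem_Ioc] at hi ⊢
        refine ⟨⟨hi.1.1, ?_⟩, hi.2⟩
        rcases Nat.lt_or_ge i n with h | h
        · omega
        · exact absurd (show Exc p n from (le_antisymm hi.1.2 h) ▸ hi.2) hE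
      have h3 := Finset.card_le_card h2
      rw [hsplit (n - 1) (Nat.sub_le n 1)]
      omega

/-- If `k` is not exceptional then in every window `(k - 2 u, k - u]` there is an element without the
property `p`. -/
theorem exists_good {p : ℕ → Prop} {k u : ℕ} (hk : ¬ Exc p k) (hu : 1 ≤ u) (huk : 2 * u ≤ k) :
    ∃ i, k - 2 * u < i ∧ i ≤ k - u ∧ ¬ p i := by
  classical
  by_contra hcon
  push Not at hcon
  refine hk ⟨2 * u, by omega, huk, ?_⟩
  have h1 : Finset.Ioc (k - 2 * u) (k - u) ⊆ (Finset.Ioc (k - 2 * u) k).filter p := by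
    intro i hi
    rw [Finset.mem_Ioc] at hi
    rw [Finset.mem_filter, Finset.mem_Ioc]
    exact ⟨⟨hi.1, by omega⟩, hcon i hi.1 hi.2⟩
  have h2 := Finset.card_le_card h1
  rw [Nat.card_Ioc] at h2
  have h3 : cnt p (k - 2 * u) k = ((Finset.Ioc (k - 2 * u) k).filter p).card := by
    unfold cnt
    congr 1
  omega

end Pool.Agent.EfcD
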