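import Pool.Agent.Lib.MP_efc1da_coD.It

/-!
# Lower bound for deleted vertices: one more point (Erdos and Lovasz)
-/

set_option autoImplicit false

namespace Pool.Agent.EfcD

open Pool.Agent.Efc

/-- The step from `K` to `K + 1`. -/
theorem step {α : Type} [Fintype α] [DecidableEq α] (K a : ℕ) (F : Finset (Finset α))
    (hU : Unif K F) (hI : Efc.Inter F) (hC : Cov K F) :
    ∃ (β : Type) (_ : Fintype β) (_ : DecidableEq β) (G : Finset (Finset β)),
      Unif (K + 1) G ∧ Efc.Inter G ∧ Cov (K + 1) G ∧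
      ∀ B : Finset β, B.card ≤ a → ∃ B0 : Finset α, B0.card ≤ a ∧
        (K + 1 - a) * (F.filter fun A => Disjoint A B0).card ≤
          (G.filter fun A => Disjoint A B).card := by
  classical
  have hdisj : ∀ (A A' : Finset α) (Y Y' : Finset (Fin (K + 1))),
      Disjoint (A.disjSum Y) (A'.disjSum Y') ↔ Disjoint A A' ∧ Disjoint Y Y' := by
    intro A A' Y Y'
    simp only [Finset.disjoint_left, Finset.inl_mem_disjSum, Finset.inr_mem_disjSum, Sum.forall]
  let G : Finset (Finset (α ⊕ Fin (K + 1))) :=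
    insert ((∅ : Finset α).disjSum Finset.univ)
      ((F ×ˢ Finset.univ).image fun p => p.1.disjSum {p.2})
  have hG : ∀ B, B ∈ G ↔ B = (∅ : Finset α).disjSum Finset.univ ∨
      ∃ A ∈ F, ∃ y : Fin (K + 1), B = A.disjSum {y} := by
    intro B
    simp only [G, Finset.mem_insert, Finset.mem_image, Finset.mem_product, Finset.mem_univ,
      and_true]
    constructor
    · rintro (h | ⟨p, hp, rfl⟩)
      · exact Or.inl h
      · exact Or.inr ⟨p.1, hp, p.2, rfl⟩
    · rintro (h | ⟨A, hA, y, rfl⟩)
      · exact Or.inl h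
      · exact Or.inr ⟨(A, y), hA, rfl⟩
  refine ⟨α ⊕ Fin (K + 1), inferInstance, inferInstance, G, ?_, ?_, ?_, ?_⟩
  · intro B hB
    rcases (hG B).1 hB with rfl | ⟨A, hA, y, rfl⟩
    · rw [Finset.card_disjSum, Finset.card_empty, Finset.card_univ, Fintype.card_fin, zero_add]
    · rw [Finset.card_disjSum, hU A hA, Finset.card_singleton]
  · intro B hB B' hB' hd
    rcases (hG B).1 hB with rfl | ⟨A, hA, y, rfl⟩ <;>
    rcases (hG B').1 hB' with rfl | ⟨A', hA', y', rfl⟩ <;> rw [hdisj] at hd
    · exact Finset.disjoint_left.1 hd.2 (Finset.mem_univ 0) (Finset.mem_univ 0)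
    · exact Finset.disjoint_left.1 hd.2 (Finset.mem_univ y') (Finset.mem_singleton_self y')
    · exact Finset.disjoint_left.1 hd.2 (Finset.mem_singleton_self y) (Finset.mem_univ y)
    · exact hI A hA A' hA' hd.1
  · intro T hT
    obtain ⟨T0, TY, rfl⟩ : ∃ (T0 : Finset α) (TY : Finset (Fin (K + 1))), T = T0.disjSum TY :=
      ⟨_, _, T.toLeft_disjSum_toRight.symm⟩
    rw [Finset.card_disjSum] at hT
    rcases TY.eq_empty_or_nonempty with h0 | h0
    · refine ⟨_, (hG _).2 (Or.inl rfl), ?_⟩
      rw [hdisj, h0]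
      exact ⟨Finset.disjoint_empty_left _, Finset.disjoint_empty_right _⟩
    · have h1 := Finset.card_pos.2 h0
      obtain ⟨A, hA, hd⟩ := hC T0 (by omega)
      obtain ⟨y, hy⟩ : ∃ y, y ∉ TY := by
        by_contra hcon
        push Not at hcon
        rw [Finset.eq_univ_iff_forall.2 hcon, Finset.card_univ, Fintype.card_fin] at hT
        omega
      refine ⟨_, (hG _).2 (Or.inr ⟨A, hA, y, rfl⟩), ?_⟩
      rw [hdisj]
      exact ⟨hd, Finset.disjoint_singleton_left.2 hy⟩
  · intro B hB
    obtain ⟨B0, BY, rfl⟩ : ∃ (B0 : Finset α) (BY : Finset (Fin (K + 1))), B = B0.disjSum BY :=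
      ⟨_, _, B.toLeft_disjSum_toRight.symm⟩
    rw [Finset.card_disjSum] at hB
    refine ⟨B0, by omega, ?_⟩
    have h1 : K + 1 - a ≤ (BYᶜ).card := by
      rw [Finset.card_compl, Fintype.card_fin]
      omega
    calc (K + 1 - a) * (F.filter fun A => Disjoint A B0).card ≤
          (BYᶜ).card * (F.filter fun A => Disjoint A B0).card := Nat.mul_le_mul_right _ h1
      _ = ((F.filter fun A => Disjoint A B0) ×ˢ BYᶜ).card := by
          rw [Finset.card_product, mul_comm]
      _ ≤ (G.filter fun A => Disjoint A (B0.disjSum BY)).card := by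
          refine Finset.card_le_card_of_injOn (fun p => p.1.disjSum {p.2}) ?_ ?_
          · intro p hp
            rw [Finset.mem_coe, Finset.mem_product, Finset.mem_filter, Finset.mem_compl] at hp
            rw [Finset.mem_coe, Finset.mem_filter]
            refine ⟨(hG _).2 (Or.inr ⟨p.1, hp.1.1, p.2, rfl⟩), ?_⟩
            rw [hdisj]
            exact ⟨hp.1.2, Finset.disjoint_singleton_left.2 hp.2⟩
          · intro p _ p' _ h
            have h2 := Finset.disjSum_inj.1 h
            exact Prod.ext h2.1 (Finset.singleton_injective h2.2)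

/-- The step from `K` to `K + g`. -/
theorem steps (a : ℕ) : ∀ (g : ℕ) (α : Type) [Fintype α] [DecidableEq α] (K : ℕ)
    (F : Finset (Finset α)), 2 * a ≤ K → Unif K F → Efc.Inter F → Cov K F →
    ∃ (β : Type) (_ : Fintype β) (_ : DecidableEq β) (G : Finset (Finset β)),
      Unif (K + g) G ∧ Efc.Inter G ∧ Cov (K + g) G ∧
      ∀ B : Finset β, B.card ≤ a → ∃ B0 : Finset α, B0.card ≤ a ∧
        (K + g).factorial * (F.filter fun A => Disjoint A B0).card ≤
          2 ^ g * K.factorial * (G.filter fun A => Disjoint A B).card := by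
  intro g
  induction g with
  | zero =>
    intro α i1 i2 K F hK hU hI hC
    exact ⟨α, i1, i2, F, hU, hI, hC, fun B hB => ⟨B, hB, by simp⟩⟩
  | succ g ih =>
    intro α i1 i2 K F hK hU hI hC
    obtain ⟨γ, k1, k2, H, hU', hI', hC', hB'⟩ := ih α K F hK hU hI hC
    obtain ⟨β, j1, j2, G, gU, gI, gC, gB⟩ := step (K + g) a H hU' hI' hC'
    refine ⟨β, j1, j2, G, gU, gI, gC, fun B hB => ?_⟩
    obtain ⟨B1, hB1, h1⟩ := gB B hB
    obtain ⟨B0, hB0, h0⟩ := hB' B1 hB1
    refine ⟨B0, hB0, ?_⟩
    have h2 : K + g + 1 ≤ 2 * (K + g + 1 - a) := by omega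
    calc (K + (g + 1)).factorial * (F.filter fun A => Disjoint A B0).card =
          (K + g + 1) * ((K + g).factorial * (F.filter fun A => Disjoint A B0).card) := by
          rw [show K + (g + 1) = (K + g) + 1 by ring, Nat.factorial_succ]
          ring
      _ ≤ (K + g + 1) * (2 ^ g * K.factorial * (H.filter fun A => Disjoint A B1).card) :=
          Nat.mul_le_mul_left _ h0
      _ ≤ (2 * (K + g + 1 - a)) * (2 ^ g * K.factorial *
            (H.filter fun A => Disjoint A B1).card) := Nat.mul_le_mul_right _ h2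
      _ = 2 ^ (g + 1) * K.factorial * ((K + g + 1 - a) *
            (H.filter fun A => Disjoint A B1).card) := by
          rw [pow_succ]
          ring
      _ ≤ 2 ^ (g + 1) * K.factorial * (G.filter fun A => Disjoint A B).card :=
          Nat.mul_le_mul_left _ h1

end Pool.Agent.EfcD
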