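import Pool.Agent.Lib.MP_efc1da_coD.It
import Pool.Agent.Lib.MP_efc1da_coD.Ke
import Pool.Agent.Lib.MP_efc1da_coD.St
import Pool.Agent.Lib.MP_efc1da_coD.Rs
import Pool.Agent.Lib.MP_efc1da_coA.Spec

/-!
# Lower bound for deleted vertices: the density argument
-/

set_option autoImplicit false

namespace Pool.Agent.EfcD.FiM

open Pool.Agent.Efc Pool.Agent.EfcA

/-- The set whose supremum is taken. -/
private def V (k a : ℕ) : Set ℕ :=
  {v : ℕ | ∃ n : ℕ, ∃ F : Finset (Finset (Fin n)),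
      (∀ A ∈ F, A.card = k) ∧
      (∀ A ∈ F, ∀ A' ∈ F, ¬ Disjoint A A') ∧
      (∀ T : Finset (Fin n), T.card < k → ∃ A ∈ F, Disjoint A T) ∧
      (∃ B : Finset (Fin n), B.card = a ∧ (F.filter (fun A => Disjoint A B)).card = v) ∧
      (∀ B : Finset (Fin n), B.card = a → v ≤ (F.filter (fun A => Disjoint A B)).card)}

private theorem card_le (hEL : ELStmt) {k n : ℕ} {F : Finset (Finset (Fin n))}
    (h1 : ∀ A ∈ F, A.card = k) (h2 : ∀ A ∈ F, ∀ A' ∈ F, ¬ Disjoint A A')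
    (h3 : ∀ T : Finset (Fin n), T.card < k → ∃ A ∈ F, Disjoint A T) : F.card ≤ k ^ k := by
  have h := hEL (Fin n) k F h1 h2 h3 ∅
  rw [Finset.filter_true_of_mem fun A _ => Finset.empty_subset A, Finset.card_empty,
    Nat.sub_zero] at h
  exact h

private theorem bdd (hEL : ELStmt) (k a : ℕ) : BddAbove (V k a) := by
  refine ⟨k ^ k, ?_⟩
  rintro v ⟨n, F, h1, h2, h3, ⟨B, -, hB⟩, -⟩
  rw [← hB]
  exact (Finset.card_le_card (Finset.filter_subset _ _)).trans (card_le hEL h1 h2 h3)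

private theorem mem_zero {k n : ℕ} {F : Finset (Finset (Fin n))}
    (h1 : ∀ A ∈ F, A.card = k) (h2 : ∀ A ∈ F, ∀ A' ∈ F, ¬ Disjoint A A')
    (h3 : ∀ T : Finset (Fin n), T.card < k → ∃ A ∈ F, Disjoint A T) :
    F.card ∈ V k 0 := by
  have h4 : F.filter (fun A => Disjoint A (∅ : Finset (Fin n))) = F :=
    Finset.filter_true_of_mem fun A _ => Finset.disjoint_empty_right A
  refine ⟨n, F, h1, h2, h3, ⟨∅, rfl, by rw [h4]⟩, fun B hB => ?_⟩
  rw [Finset.card_eq_zero.1 hB, h4]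

/-- The facts on `f k = m k 0`. -/
private theorem facts (hEL : ELStmt) (hLow : LowStmt) (m : ℕ → ℕ → ℕ)
    (hm : ∀ k a, m k a = sSup (V k a)) :
    (∀ (k n : ℕ) (F : Finset (Finset (Fin n))), Unif k F → Efc.Inter F → Cov k F →
      F.card ≤ m k 0) ∧
    (∀ k, 1 ≤ k → k.factorial ≤ m k 0) ∧
    (∀ k, 1 ≤ k → ∃ (n : ℕ) (F : Finset (Finset (Fin n))), Unif k F ∧ Efc.Inter F ∧ Cov k F ∧
      F.card = m k 0) := by
  have hub : ∀ (k n : ℕ) (F : Finset (Finset (Fin n))), Unif k F → Efc.Inter F → Cov k F →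
      F.card ≤ m k 0 := by
    intro k n F h1 h2 h3
    rw [hm k 0]
    exact le_csSup (bdd hEL k 0) (mem_zero h1 h2 h3)
  refine ⟨hub, fun k hk => ?_, fun k hk => ?_⟩
  · obtain ⟨n, F, h1, h2, h3, h4⟩ := hLow k hk
    exact h4.trans (hub k n F h1 h2 h3)
  · obtain ⟨n₀, F₀, h1, h2, h3, -⟩ := hLow k hk
    have hmem := Nat.sSup_mem ⟨_, mem_zero h1 h2 h3⟩ (bdd hEL k 0)
    rw [← hm k 0] at hmem
    obtain ⟨n, F, g1, g2, g3, ⟨B, hB, hB'⟩, -⟩ := hmem
    refine ⟨n, F, g1, g2, g3, ?_⟩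
    rw [← hB', Finset.card_eq_zero.1 hB]
    congr 1
    exact (Finset.filter_true_of_mem fun A _ => Finset.disjoint_empty_right A).symm

/-- A lower bound for `m K a` from one family. -/
private theorem lower (hEL : ELStmt) (m : ℕ → ℕ → ℕ) (hm : ∀ k a, m k a = sSup (V k a))
    {K a n t c : ℕ} {F : Finset (Finset (Fin n))} (hU : Unif K F) (hI : Efc.Inter F) (hC : Cov K F)
    (haK : a < K)
    (h : ∀ B : Finset (Fin n), B.card = a → t ≤ c * (F.filter fun A => Disjoint A B).card) :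
    t ≤ c * m K a := by
  obtain ⟨A0, hA0, -⟩ := hC ∅ (by rw [Finset.card_empty]; omega)
  have hKn : K ≤ n := by
    rw [← hU A0 hA0]
    have := Finset.card_le_univ A0
    rwa [Fintype.card_fin] at this
  have hne : (Finset.powersetCard a (Finset.univ : Finset (Fin n))).Nonempty := by
    rw [Finset.powersetCard_nonempty, Finset.card_univ, Fintype.card_fin]
    omega
  obtain ⟨B, hB, hmin⟩ := Finset.exists_min_image _
    (fun B : Finset (Fin n) => (F.filter fun A => Disjoint A B).card) hne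
  rw [Finset.mem_powersetCard] at hB
  have hv : (F.filter fun A => Disjoint A B).card ∈ V K a :=
    ⟨n, F, hU, hI, hC, ⟨B, hB.2, rfl⟩, fun B' hB' =>
      hmin B' (Finset.mem_powersetCard.2 ⟨Finset.subset_univ B', hB'⟩)⟩
  have h1 : (F.filter fun A => Disjoint A B).card ≤ m K a := by
    rw [hm K a]
    exact le_csSup (bdd hEL K a) hv
  exact (h B hB.2).trans (Nat.mul_le_mul_left c h1)

/-- The function `a k = log (f k / k!)`. -/
private noncomputable def la (f : ℕ → ℕ) (k : ℕ) : ℝ := Real.log ((f k : ℝ) / k.factorial)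

private theorem fpos {f : ℕ → ℕ} {k : ℕ} (hf : k.factorial ≤ f k) : (0 : ℝ) < f k := by
  exact_mod_cast (Nat.factorial_pos k).trans_le hf

private theorem la_mono {f : ℕ → ℕ} {k : ℕ} (hf : k.factorial ≤ f k)
    (h : (k + 1) * f k ≤ f (k + 1)) : la f k ≤ la f (k + 1) := by
  unfold la
  have h0 : (0 : ℝ) < k.factorial := by positivity
  have h1 : (0 : ℝ) < (k + 1).factorial := by positivity
  refine Real.log_le_log (div_pos (fpos hf) h0) ?_
  rw [div_le_div_iff₀ h0 h1]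
  have h2 : ((k + 1).factorial : ℝ) = (k + 1) * k.factorial := by
    exact_mod_cast Nat.factorial_succ k
  have h3 : ((k : ℝ) + 1) * f k ≤ f (k + 1) := by exact_mod_cast h
  rw [h2]
  calc (f k : ℝ) * ((k + 1) * k.factorial) = ((k : ℝ) + 1) * f k * k.factorial := by ring
    _ ≤ f (k + 1) * k.factorial := mul_le_mul_of_nonneg_right h3 h0.le

private theorem la_le {f : ℕ → ℕ} {k : ℕ} (hf : k.factorial ≤ f k) (h : f k ≤ k ^ k) :
    la f k ≤ k := by
  unfold la
  have h0 : (0 : ℝ) < k.factorial := by positivity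
  rw [Real.log_le_iff_le_exp (div_pos (fpos hf) h0)]
  have h1 : (f k : ℝ) ≤ (k : ℝ) ^ k := by exact_mod_cast h
  exact (div_le_div_of_nonneg_right h1 h0.le).trans
    (Real.pow_div_factorial_le_exp (k : ℝ) (Nat.cast_nonneg k) k)

/-- A good index. -/
private theorem good {f : ℕ → ℕ} {k u : ℕ} {lam : ℝ} (hf : k.factorial ≤ f k)
    (hf' : (k + u).factorial ≤ f (k + u)) (h : la f (k + u) ≤ la f k + lam * u) :
    (f (k + u) : ℝ) * k.factorial ≤ Real.exp lam ^ u * f k * (k + u).factorial := by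
  unfold la at h
  have h0 : (0 : ℝ) < k.factorial := by positivity
  have h1 : (0 : ℝ) < (k + u).factorial := by positivity
  have h2 : 0 < (f (k + u) : ℝ) / (k + u).factorial := div_pos (fpos hf') h1
  have h3 : 0 < (f k : ℝ) / k.factorial := div_pos (fpos hf) h0
  have h4 := Real.exp_le_exp.2 h
  rw [Real.exp_log h2, Real.exp_add, Real.exp_log h3, mul_comm lam, Real.exp_nat_mul] at h4
  rw [div_mul_eq_mul_div, div_le_div_iff₀ h1 h0] at h4
  calc (f (k + u) : ℝ) * k.factorial ≤ f k * Real.exp lam ^ u * (k + u).factorial := h4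
    _ = Real.exp lam ^ u * f k * (k + u).factorial := by ring

/-- `2 ≤ s`. -/
private theorem two_le_s {a s : ℕ} {CB : ℝ} (ha : 1 ≤ a) (hCB : 1 ≤ CB)
    (hs : Real.exp 2 * CB * (2 * a) ≤ s) : 2 ≤ s := by
  have h1 : (1 : ℝ) ≤ Real.exp 2 := Real.one_le_exp (by norm_num)
  have h2 : (1 : ℝ) ≤ a := by exact_mod_cast ha
  have h3 : (1 : ℝ) ≤ Real.exp 2 * CB := by nlinarith
  have h4 : (2 : ℝ) ≤ s := by nlinarith
  exact_mod_cast h4

/-- The inequality for one good `k`. -/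
private theorem one (hEL : ELStmt) (m : ℕ → ℕ → ℕ) (hm : ∀ k a, m k a = sSup (V k a))
    {k a s g : ℕ} {CB : ℝ} (hCB : 1 ≤ CB) (ha : 1 ≤ a) (hs : Real.exp 2 * CB * (2 * a) ≤ s)
    (hsk : s ≤ k) (hk2 : a + 2 ≤ k) {n : ℕ} {F : Finset (Finset (Fin n))} (hU : Unif k F)
    (hI : Efc.Inter F) (hC : Cov k F) (hBd : Bd CB F.card F) :
    (k + a * s + g).factorial * F.card ≤
      (2 * (2 * a) ^ s * (2 ^ g * (k + a * s).factorial)) * m (k + a * s + g) a := by
  obtain ⟨A0, hA0, -⟩ := hC ∅ (by rw [Finset.card_empty]; omega)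
  obtain ⟨P, hP, hPs, hPB⟩ := ker k F CB a s hCB ha hs hsk hU ⟨A0, hA0⟩ hBd
  obtain ⟨β, i1, i2, G, gU, gI, gC, gB⟩ := iter a s (Fin n) k F P hP hk2 hU hI hC hPs
  have ha2 : a ≤ a * s + k := by omega
  obtain ⟨γ, j1, j2, H, hU', hI', hC', hB'⟩ := steps a g β (k + a * s) G
    (by nlinarith [Nat.zero_le s, two_le_s ha hCB hs]) gU gI gC
  obtain ⟨n', F', f1, f2, f3, f4⟩ := trans (k + a * s + g) H hU' hI' hC'
  refine lower hEL m hm f1 f2 f3 (by omega) fun B3 hB3 => ?_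
  obtain ⟨B2, hB2, hle2⟩ := f4 B3
  obtain ⟨B1, hB1, hle1⟩ := hB' B2 (by omega)
  obtain ⟨B0, hB0, hd, hle0⟩ := gB B1 hB1
  have hle := hPB B0 hB0 hd
  calc (k + a * s + g).factorial * F.card ≤
        (k + a * s + g).factorial * (2 * (2 * a) ^ s * (F.filter fun A => Disjoint A B0).card) :=
        Nat.mul_le_mul_left _ hle
    _ ≤ (k + a * s + g).factorial * (2 * (2 * a) ^ s * (G.filter fun A => Disjoint A B1).card) :=
        Nat.mul_le_mul_left _ (Nat.mul_le_mul_left _ hle0)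
    _ = 2 * (2 * a) ^ s * ((k + a * s + g).factorial * (G.filter fun A => Disjoint A B1).card) := by
        ring
    _ ≤ 2 * (2 * a) ^ s * (2 ^ g * (k + a * s).factorial *
          (H.filter fun A => Disjoint A B2).card) := Nat.mul_le_mul_left _ hle1
    _ ≤ 2 * (2 * a) ^ s * (2 ^ g * (k + a * s).factorial *
          (F'.filter fun A => Disjoint A B3).card) :=
        Nat.mul_le_mul_left _ (Nat.mul_le_mul_left _ hle2)
    _ = _ := by ring

/-- The numerical part. -/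
private theorem num {k a s g l c : ℕ} {fk fK mm : ℕ} {E : ℝ} (hE1 : 1 ≤ E) (hE : E ^ 2 ≤ 2 ^ l)
    (hs : s = c * a) (hc : 1 ≤ c) (ha : 1 ≤ a) (hk2 : a + 2 ≤ k) (hg : g ≤ a * s)
    (h1 : (fK : ℝ) * k.factorial ≤ E ^ (a * s + g) * fk * (k + a * s + g).factorial)
    (h2 : (k + a * s + g).factorial * fk ≤
      (2 * (2 * a) ^ s * (2 ^ g * (k + a * s).factorial)) * mm) :
    fK ≤ (k + a * s + g) ^ (((l + 3) * c + 1) * a ^ 2) * mm := by
  set K : ℕ := k + a * s + g with hK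
  have hsa : a ≤ a * s := Nat.le_mul_of_pos_right a (by rw [hs]; positivity)
  have hK2 : 2 ≤ K := by omega
  have hK2a : 2 * a ≤ K := by omega
  have hkf : 0 < k.factorial := Nat.factorial_pos k
  -- the exponential factor
  have e1 : E ^ (a * s + g) ≤ (2 : ℝ) ^ (l * (a * s)) := by
    calc E ^ (a * s + g) ≤ E ^ (2 * (a * s)) := pow_le_pow_right₀ hE1 (by omega)
      _ = (E ^ 2) ^ (a * s) := by rw [pow_mul]
      _ ≤ ((2 : ℝ) ^ l) ^ (a * s) := pow_le_pow_left₀ (by positivity) hE _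
      _ = _ := (pow_mul 2 l (a * s)).symm
  have e2 : fK * k.factorial ≤ 2 ^ (l * (a * s)) * (K.factorial * fk) := by
    have : (fK : ℝ) * k.factorial ≤ 2 ^ (l * (a * s)) * (K.factorial * fk) := by
      calc (fK : ℝ) * k.factorial ≤ E ^ (a * s + g) * fk * K.factorial := h1
        _ = E ^ (a * s + g) * (K.factorial * fk) := by ring
        _ ≤ _ := mul_le_mul_of_nonneg_right e1 (by positivity)
    exact_mod_cast this
  have e3 : (k + a * s).factorial ≤ k.factorial * K ^ (a * s) := by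
    rw [← Nat.factorial_mul_ascFactorial]
    refine Nat.mul_le_mul_left _ ((Nat.ascFactorial_le_pow_add k (a * s)).trans ?_)
    exact Nat.pow_le_pow_left (by omega) _
  have e4 : fK * k.factorial ≤
      (2 ^ (l * (a * s)) * (2 * (2 * a) ^ s * (2 ^ g * K ^ (a * s))) * mm) * k.factorial := by
    calc fK * k.factorial ≤ 2 ^ (l * (a * s)) * (K.factorial * fk) := e2
      _ ≤ 2 ^ (l * (a * s)) * ((2 * (2 * a) ^ s * (2 ^ g * (k + a * s).factorial)) * mm) :=
          Nat.mul_le_mul_left _ h2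
      _ ≤ 2 ^ (l * (a * s)) * ((2 * (2 * a) ^ s * (2 ^ g * (k.factorial * K ^ (a * s)))) * mm) :=
          Nat.mul_le_mul_left _ (Nat.mul_le_mul_right _ (Nat.mul_le_mul_left _
            (Nat.mul_le_mul_left _ e3)))
      _ = _ := by ring
  have e5 := Nat.le_of_mul_le_mul_right e4 hkf
  refine e5.trans (Nat.mul_le_mul_right _ ?_)
  calc 2 ^ (l * (a * s)) * (2 * (2 * a) ^ s * (2 ^ g * K ^ (a * s))) ≤
        K ^ (l * (a * s)) * (K * K ^ s * (K ^ g * K ^ (a * s))) := by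
        refine Nat.mul_le_mul (Nat.pow_le_pow_left hK2 _) (Nat.mul_le_mul (Nat.mul_le_mul hK2
          (Nat.pow_le_pow_left hK2a _)) (Nat.mul_le_mul (Nat.pow_le_pow_left hK2 _) le_rfl))
    _ = K ^ (l * (a * s) + 1 + s + g + a * s) := by
        rw [pow_add, pow_add, pow_add, pow_add, pow_one]
        ring
    _ ≤ K ^ (((l + 3) * c + 1) * a ^ 2) := by
        refine Nat.pow_le_pow_right (by omega) ?_
        have h5 : s ≤ a * s := Nat.le_mul_of_pos_left s (by omega)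
        have h6 : a * s = c * a ^ 2 := by rw [hs]; ring
        have h7 : 1 ≤ a ^ 2 := Nat.one_le_pow _ _ (by omega)
        calc l * (a * s) + 1 + s + g + a * s ≤ l * (a * s) + 1 + a * s + a * s + a * s := by omega
          _ = (l + 3) * (a * s) + 1 := by ring
          _ ≤ (l + 3) * (a * s) + a ^ 2 := by omega
          _ = ((l + 3) * c + 1) * a ^ 2 := by rw [h6]; ring

end Pool.Agent.EfcD.FiM

namespace Pool.Agent.EfcD

open Pool.Agent.Efc Pool.Agent.EfcA

/-- The final statement: for all but at most `δ n` of the `k ≤ n`: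
`m(k,a) ≥ k^(-C a²) m(k,0)` for all `a < k`. -/
def StmtFi : Prop :=
  ∀ m : ℕ → ℕ → ℕ,
    (∀ k a : ℕ, m k a = sSup {v : ℕ | ∃ n : ℕ, ∃ F : Finset (Finset (Fin n)),
      (∀ A ∈ F, A.card = k) ∧
      (∀ A ∈ F, ∀ A' ∈ F, ¬ Disjoint A A') ∧
      (∀ T : Finset (Fin n), T.card < k → ∃ A ∈ F, Disjoint A T) ∧
      (∃ B : Finset (Fin n), B.card = a ∧ (F.filter (fun A => Disjoint A B)).card = v) ∧
      (∀ B : Finset (Fin n), B.card = a → v ≤ (F.filter (fun A => Disjoint A B)).card)}) →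
    ∀ δ : ℝ, 0 < δ → ∃ C : ℕ, ∀ n : ℕ, ∀ S : Finset ℕ,
      (∀ k ∈ S, k ≤ n ∧ ∃ a : ℕ, a < k ∧ k ^ (C * a ^ 2) * m k a < m k 0) →
        (S.card : ℝ) ≤ δ * n

theorem stmtFi : StmtGrw → StmtGdb → StmtLws → Efc.ELStmt → Efc.LowStmt → StmtFi := by
  classical
  intro hGrw hGdb hLws hEL hLow m hm δ hδ
  have hm' : ∀ k a, m k a = sSup (FiM.V k a) := hm
  obtain ⟨hub, hfac, hatt⟩ := FiM.facts hEL hLow m hm'
  set f : ℕ → ℕ := fun k => m k 0 with hfdef
  set δ' : ℝ := min δ 1 with hδ'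
  have hδ0 : 0 < δ' := lt_min hδ one_pos
  have hδ1 : δ' ≤ 1 := min_le_right _ _
  have hδδ : δ' ≤ δ := min_le_left _ _
  set lam : ℝ := 4 / δ' with hlam
  have hlam4 : 4 ≤ lam := by
    rw [hlam, le_div_iff₀ hδ0]
    linarith
  have hK : 1 ≤ Real.exp lam := Real.one_le_exp (by linarith)
  set CB : ℝ := 6 * Real.exp lam + 9 with hCBdef
  have hCB : 1 ≤ CB := by linarith
  set c1 : ℕ := ⌈2 * (Real.exp 2 * CB)⌉₊ with hc1
  have hc1' : 2 * (Real.exp 2 * CB) ≤ c1 := Nat.le_ceil _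
  have hc1pos : 1 ≤ c1 := by
    have : (0 : ℝ) < 2 * (Real.exp 2 * CB) := by positivity
    exact Nat.ceil_pos.2 this
  obtain ⟨l, hl⟩ := pow_unbounded_of_one_lt (Real.exp lam ^ 2) (one_lt_two)
  set CC : ℕ := (l + 3) * c1 + 1 + 4 with hCC
  have hle : ∀ k, 1 ≤ k → f k ≤ k ^ k := by
    intro k hk
    obtain ⟨n, F, h1, h2, h3, h4⟩ := hatt k hk
    have h5 := FiM.card_le hEL h1 h2 h3
    rw [h4] at h5
    exact h5
  obtain ⟨bad, hbad⟩ : ∃ bad : ℕ → Prop, ∀ k, bad k ↔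
      1 ≤ k ∧ ∃ u : ℕ, FiM.la f k + lam * u < FiM.la f (k + u) := ⟨_, fun _ => Iff.rfl⟩
  -- the main inequality
  have key : ∀ k a : ℕ, ¬ Exc bad k → a < k → m k 0 ≤ k ^ (CC * a ^ 2) * m k a := by
    intro k' a hnE hak
    rcases Nat.eq_zero_or_pos a with ha0 | ha
    · rw [ha0]
      simp
    by_cases hsmall : k' ≤ CC * a ^ 2
    · obtain ⟨n0, F, h1, h2, h3, -⟩ := hLow k' (by omega)
      have h4 : 1 ≤ 1 * m k' a := by
        refine FiM.lower hEL m hm' h1 h2 h3 hak fun B hB => ?_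
        obtain ⟨A, hA, hd⟩ := h3 B (by omega)
        rw [one_mul]
        exact Finset.card_pos.2 ⟨A, Finset.mem_filter.2 ⟨hA, hd⟩⟩
      rw [one_mul] at h4
      calc f k' ≤ k' ^ k' := hle k' (by omega)
        _ ≤ k' ^ (CC * a ^ 2) := Nat.pow_le_pow_right (by omega) hsmall
        _ ≤ k' ^ (CC * a ^ 2) * m k' a := Nat.le_mul_of_pos_right _ h4
    push Not at hsmall
    set s : ℕ := c1 * a with hs
    have ha2 : a ≤ a ^ 2 := by nlinarith
    have hU : a * s = c1 * a ^ 2 := by rw [hs]; ring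
    have hbig : 3 * (a * s) + 4 * a ^ 2 < k' := by
      refine lt_of_le_of_lt ?_ hsmall
      rw [hU, hCC]
      nlinarith [Nat.zero_le (l * c1 * a ^ 2), Nat.zero_le (a ^ 2)]
    have hs1 : s ≤ a * s := Nat.le_mul_of_pos_left s ha
    have hs2 : 1 ≤ s := by
      rw [hs]
      exact Nat.mul_pos hc1pos ha
    obtain ⟨k, hk1, hk2, hgood⟩ := exists_good hnE (u := a * s) (by omega) (by omega)
    have hkpos : 1 ≤ k := by omega
    have hcon : ∀ u : ℕ, FiM.la f (k + u) ≤ FiM.la f k + lam * u := by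
      intro u
      by_contra h
      push Not at h
      exact hgood ((hbad k).2 ⟨hkpos, u, h⟩)
    obtain ⟨g, rfl⟩ : ∃ g, k' = k + a * s + g := ⟨k' - (k + a * s), by omega⟩
    have hgU : g ≤ a * s := by omega
    obtain ⟨n0, F, g1, g2, g3, g4⟩ := hatt k hkpos
    have hgd := fun u => FiM.good (hfac k hkpos) (hfac (k + u) (by omega)) (hcon u)
    have hBd := hGdb f k (Real.exp lam) hkpos hK (fun k' n F g1 g2 g3 => hub k' n F g1 g2 g3)
      (hfac k hkpos) hgd n0 F g1 g2 g3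
    have h2 := FiM.one hEL m hm' (a := a) (s := s) (g := g) (CB := CB) hCB ha
      (by
        rw [hs]
        push_cast
        have : (0 : ℝ) ≤ a := Nat.cast_nonneg a
        nlinarith) (by omega) (by omega)
      g1 g2 g3 (by rw [g4]; exact hBd)
    rw [g4] at h2
    have h3 := hgd (a * s + g)
    rw [← Nat.add_assoc] at h3
    have h4 := FiM.num hK hl.le hs hc1pos ha (by omega) hgU h3 h2
    refine h4.trans (Nat.mul_le_mul_right _ (Nat.pow_le_pow_right (by omega) ?_))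
    exact Nat.mul_le_mul_right _ (by omega)
  refine ⟨CC, fun n S hS => ?_⟩
  -- all elements of `S` are exceptional
  have hsub : S ⊆ (Finset.Ioc 0 n).filter (Exc bad) := by
    intro k hk
    obtain ⟨hkn, a, hak, hlt⟩ := hS k hk
    rw [Finset.mem_filter, Finset.mem_Ioc]
    refine ⟨⟨by omega, hkn⟩, ?_⟩
    by_contra hE
    exact absurd hlt (not_lt.2 (key k a hE hak))
  have hc2 := (Finset.card_le_card hsub).trans (maximal bad n)
  have hgr := hGrw (FiM.la f) lam (by linarith) ?_ ?_ ?_ n ((Finset.Ioc 0 n).filter bad) ?_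
  · have hc3 : (S.card : ℝ) ≤ 2 * ((Finset.Ioc 0 n).filter bad).card := by
      have : S.card ≤ 2 * ((Finset.Ioc 0 n).filter bad).card := by
        unfold cnt at hc2
        exact hc2
      exact_mod_cast this
    rcases S.eq_empty_or_nonempty with h0 | ⟨k, hk⟩
    · rw [h0, Finset.card_empty, Nat.cast_zero]
      positivity
    · have hn : (1 : ℝ) ≤ n := by
        obtain ⟨hkn, a, hak, -⟩ := hS k hk
        exact_mod_cast (show 1 ≤ n by omega)
      rw [hlam, div_mul_eq_mul_div, div_le_iff₀ hδ0] at hgr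
      have h1 : δ' * n ≤ δ * n := mul_le_mul_of_nonneg_right hδδ (by linarith)
      nlinarith
  · unfold FiM.la
    refine Real.log_nonneg ?_
    have := hfac 1 le_rfl
    rw [Nat.factorial_one] at this ⊢
    rw [Nat.cast_one, div_one]
    exact_mod_cast this
  · intro k hk
    obtain ⟨n, F, h1, h2, h3, h4⟩ := hatt k hk
    obtain ⟨n', F', g1, g2, g3, g4⟩ := hLws (Fin n) k F h1 h2 h3
    refine FiM.la_mono (hfac k hk) ?_
    have h5 := g4.trans (hub (k + 1) n' F' g1 g2 g3)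
    rw [h4] at h5
    exact h5
  · intro k hk
    exact FiM.la_le (hfac k hk) (hle k hk)
  · intro k hk
    rw [Finset.mem_filter, Finset.mem_Ioc, hbad] at hk
    exact ⟨hk.2.1, hk.1.2, hk.2.2⟩

end Pool.Agent.EfcD
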