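import Pool.Agent.Lib.MP_efc1da_coD.Op

/-!
# Lower bound for deleted vertices: iteration of the operation, transfer to `Fin n`
-/

set_option autoImplicit false

namespace Pool.Agent.EfcD

open Pool.Agent.Efc

/-- Apply the operation to all points of `P`. -/
theorem iter (a : ℕ) : ∀ (n : ℕ) (α : Type) [Fintype α] [DecidableEq α] (k : ℕ)
    (F : Finset (Finset α)) (P : Finset α), P.card = n → a + 2 ≤ k → Unif k F → Efc.Inter F →
    Cov k F → (∀ x ∈ P, ∃ A ∈ F, x ∈ A) →
    ∃ (β : Type) (_ : Fintype β) (_ : DecidableEq β) (G : Finset (Finset β)),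
      Unif (k + a * n) G ∧ Efc.Inter G ∧ Cov (k + a * n) G ∧
      ∀ B : Finset β, B.card ≤ a → ∃ B0 : Finset α, B0.card ≤ a ∧ Disjoint B0 P ∧
        (F.filter fun A => Disjoint A B0).card ≤ (G.filter fun A => Disjoint A B).card := by
  intro n
  induction n with
  | zero =>
    intro α i1 i2 k F P hP _ hU hI hC _
    refine ⟨α, i1, i2, F, ?_, hI, ?_, fun B hB => ⟨B, hB, ?_, le_rfl⟩⟩
    · simpa using hU
    · simpa using hC
    · rw [Finset.card_eq_zero.1 hP]
      exact Finset.disjoint_empty_right B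
  | succ n ih =>
    intro α i1 i2 k F P hP hk hU hI hC hS
    obtain ⟨x, hx⟩ : P.Nonempty := Finset.card_pos.1 (by omega)
    obtain ⟨β, j1, j2, G, gU, gI, gC, gB⟩ := ih (Pt α k a) (k + a) (fam k a F x)
      ((P.erase x).map Function.Embedding.inl)
      (by rw [Finset.card_map, Finset.card_erase_of_mem hx, hP]; rfl) (by omega)
      (unif (by omega) hU) (inter hI) (cov (by omega) hU hI hC (hS x hx)) (by
        intro w hw
        obtain ⟨z, hz, rfl⟩ := Finset.mem_map.1 hw
        exact support (by omega) (Finset.ne_of_mem_erase hz) (hS z (Finset.mem_of_mem_erase hz)))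
    have e : k + a + a * n = k + a * (n + 1) := by ring
    rw [e] at gU gC
    refine ⟨β, j1, j2, G, gU, gI, gC, fun B hB => ?_⟩
    obtain ⟨B', hB', hd, hle⟩ := gB B hB
    refine ⟨B'.toLeft.erase x, ?_, ?_, (avoid hk B' hB').trans hle⟩
    · exact (Finset.card_erase_le.trans Finset.card_toLeft_le).trans hB'
    · rw [Finset.disjoint_left]
      intro z hz hzP
      rw [Finset.mem_erase, Finset.mem_toLeft] at hz
      exact Finset.disjoint_left.1 hd hz.2
        (Finset.mem_map.2 ⟨z, Finset.mem_erase.2 ⟨hz.1, hzP⟩, rfl⟩)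

/-- Transfer of a family to `Fin n`. -/
theorem trans {β : Type} [Fintype β] [DecidableEq β] (K : ℕ) (G : Finset (Finset β))
    (hU : Unif K G) (hI : Efc.Inter G) (hC : Cov K G) :
    ∃ (n : ℕ) (F' : Finset (Finset (Fin n))), Unif K F' ∧ Efc.Inter F' ∧ Cov K F' ∧
      ∀ B' : Finset (Fin n), ∃ B : Finset β, B.card = B'.card ∧
        (G.filter fun A => Disjoint A B).card ≤ (F'.filter fun A => Disjoint A B').card := by
  let e : β ≃ Fin (Fintype.card β) := Fintype.equivFin β
  refine ⟨Fintype.card β, G.map (Finset.mapEmbedding e.toEmbedding).toEmbedding, ?_, ?_, ?_, ?_⟩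
  · intro B hB
    obtain ⟨A, hA, rfl⟩ := Finset.mem_map.1 hB
    change (A.map e.toEmbedding).card = K
    rw [Finset.card_map]
    exact hU A hA
  · intro B hB B' hB' hd
    obtain ⟨A, hA, rfl⟩ := Finset.mem_map.1 hB
    obtain ⟨A', hA', rfl⟩ := Finset.mem_map.1 hB'
    apply hI A hA A' hA'
    exact (Finset.disjoint_map e.toEmbedding).1 hd
  · intro T hT
    have h1 : (T.map e.symm.toEmbedding).card < K := by rwa [Finset.card_map]
    obtain ⟨A, hA, hAT⟩ := hC _ h1
    refine ⟨A.map e.toEmbedding, Finset.mem_map.2 ⟨A, hA, rfl⟩, ?_⟩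
    rw [Finset.disjoint_left] at hAT ⊢
    intro y hy hyT
    obtain ⟨a, ha, rfl⟩ := Finset.mem_map.1 hy
    refine hAT ha (Finset.mem_map.2 ⟨_, hyT, ?_⟩)
    change e.symm (e a) = a
    exact e.symm_apply_apply a
  · intro B'
    refine ⟨B'.map e.symm.toEmbedding, Finset.card_map _, ?_⟩
    refine Finset.card_le_card_of_injOn (fun A => A.map e.toEmbedding) ?_ ?_
    · intro A hA
      rw [Finset.mem_coe, Finset.mem_filter] at hA
      rw [Finset.mem_coe, Finset.mem_filter]
      refine ⟨Finset.mem_map.2 ⟨A, hA.1, rfl⟩, ?_⟩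
      have hd := hA.2
      beta_reduce
      rw [Finset.disjoint_left] at hd ⊢
      intro y hy hyT
      obtain ⟨a, ha, rfl⟩ := Finset.mem_map.1 hy
      refine hd ha (Finset.mem_map.2 ⟨_, hyT, ?_⟩)
      change e.symm (e a) = a
      exact e.symm_apply_apply a
    · intro A _ A' _ h
      exact Finset.map_injective e.toEmbedding h

end Pool.Agent.EfcD
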