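import Pool.Agent.Lib.MP_efc1da_co.Spec

/-!
# Lower bound for deleted vertices: the operation `Op_a`

`F` is `k`-uniform, intersecting, with covering number `k`, and `x` is a point of some member.  The
operation replaces the point `x` by the sets of `a + 1` points of a set of `2 a + 1` new points.  The
result is `(k + a)`-uniform, intersecting, with covering number `k + a`, and for every set `B` of at
most `a` points the number of members which avoid `B` is at least the number of members of `F` which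
avoid the old points of `B` other than `x`.
-/

set_option autoImplicit false

namespace Pool.Agent.EfcD

open Pool.Agent.Efc

/-- The points of the new family. -/
abbrev Pt (α : Type) (k a : ℕ) : Type := α ⊕ (Fin (2 * a + 1) ⊕ (Fin a × Fin (k - 1)))

section

variable {α : Type}

/-- A set of points with given parts. -/
def mk (k a : ℕ) (A : Finset α) (K : Finset (Fin (2 * a + 1))) (Y : Finset (Fin a × Fin (k - 1))) :
    Finset (Pt α k a) := A.disjSum (K.disjSum Y)

theorem exists_mk (k a : ℕ) (T : Finset (Pt α k a)) : ∃ A K Y, T = mk k a A K Y :=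
  ⟨T.toLeft, T.toRight.toLeft, T.toRight.toRight, by
    unfold mk
    rw [Finset.toLeft_disjSum_toRight, Finset.toLeft_disjSum_toRight]⟩

theorem card_mk (k a : ℕ) (A : Finset α) (K : Finset (Fin (2 * a + 1)))
    (Y : Finset (Fin a × Fin (k - 1))) : (mk k a A K Y).card = A.card + (K.card + Y.card) := by
  unfold mk
  rw [Finset.card_disjSum, Finset.card_disjSum]

theorem disjoint_mk (k a : ℕ) (A A' : Finset α) (K K' : Finset (Fin (2 * a + 1)))
    (Y Y' : Finset (Fin a × Fin (k - 1))) :
    Disjoint (mk k a A K Y) (mk k a A' K' Y') ↔ Disjoint A A' ∧ Disjoint K K' ∧ Disjoint Y Y' := by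
  unfold mk
  simp only [Finset.disjoint_left, Finset.inl_mem_disjSum, Finset.inr_mem_disjSum, Sum.forall]

/-- The set `{(l, y l)}`. -/
def gra {a k : ℕ} (y : Fin a → Fin (k - 1)) : Finset (Fin a × Fin (k - 1)) :=
  Finset.univ.map ⟨fun l => (l, y l), fun _ _ h => (Prod.mk.inj h).1⟩

/-- The block number `l`. -/
def blo {a k : ℕ} (l : Fin a) : Finset (Fin a × Fin (k - 1)) := {l} ×ˢ Finset.univ

theorem card_gra {a k : ℕ} (y : Fin a → Fin (k - 1)) : (gra y).card = a := by
  unfold gra
  rw [Finset.card_map, Finset.card_univ, Fintype.card_fin]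

theorem card_blo {a k : ℕ} (l : Fin a) : (blo (k := k) l).card = k - 1 := by
  unfold blo
  rw [Finset.card_product, Finset.card_singleton, Finset.card_univ, Fintype.card_fin, one_mul]

variable [DecidableEq α]

/-- The members of the new family. -/
def Mem (k a : ℕ) (F : Finset (Finset α)) (x : α) (B : Finset (Pt α k a)) : Prop :=
  (∃ A ∈ F, x ∈ A ∧ ∃ K : Finset (Fin (2 * a + 1)), K.card = a + 1 ∧ B = mk k a (A.erase x) K ∅) ∨
  (∃ A ∈ F, x ∉ A ∧ ∃ y : Fin a → Fin (k - 1), B = mk k a A ∅ (gra y)) ∨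
  (∃ (l : Fin a) (K : Finset (Fin (2 * a + 1))), K.card = a + 1 ∧ B = mk k a ∅ K (blo l))

/-- The new family. -/
noncomputable def fam [Fintype α] (k a : ℕ) (F : Finset (Finset α)) (x : α) :
    Finset (Finset (Pt α k a)) :=
  open Classical in Finset.univ.filter (Mem k a F x)

theorem mem_fam [Fintype α] (k a : ℕ) (F : Finset (Finset α)) (x : α) (B : Finset (Pt α k a)) :
    B ∈ fam k a F x ↔ Mem k a F x B := by
  unfold fam
  simp

/-- Two sets of more than half of the new points meet. -/
theorem half {a : ℕ} {K K' : Finset (Fin (2 * a + 1))} (h : K.card = a + 1) (h' : K'.card = a + 1) :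
    ¬ Disjoint K K' := by
  intro hd
  have h1 := Finset.card_union_of_disjoint hd
  have h2 := Finset.card_le_univ (K ∪ K')
  rw [Fintype.card_fin] at h2
  omega

/-- Choose `a + 1` new points outside a set of at most `a` points. -/
theorem exists_half {a : ℕ} {K : Finset (Fin (2 * a + 1))} (h : K.card ≤ a) :
    ∃ K' : Finset (Fin (2 * a + 1)), K'.card = a + 1 ∧ Disjoint K' K := by
  have h1 : a + 1 ≤ Kᶜ.card := by
    rw [Finset.card_compl, Fintype.card_fin]
    omega
  obtain ⟨K', h2, h3⟩ := Finset.exists_subset_card_eq h1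
  exact ⟨K', h3, Finset.disjoint_left.2 fun i hi hK => Finset.mem_compl.1 (h2 hi) hK⟩

theorem gra_blo {a k : ℕ} (y : Fin a → Fin (k - 1)) (l : Fin a) : ¬ Disjoint (gra y) (blo l) := by
  rw [Finset.not_disjoint_iff]
  refine ⟨(l, y l), ?_, ?_⟩
  · unfold gra
    rw [Finset.mem_map]
    exact ⟨l, Finset.mem_univ l, rfl⟩
  · unfold blo
    rw [Finset.mem_product]
    exact ⟨Finset.mem_singleton_self l, Finset.mem_univ _⟩

/-- Choose one point of every block outside a set which contains no block. -/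
theorem exists_gra {a k : ℕ} {Y : Finset (Fin a × Fin (k - 1))}
    (h : ∀ l : Fin a, ∃ j, (l, j) ∉ Y) : ∃ y : Fin a → Fin (k - 1), Disjoint (gra y) Y := by
  choose y hy using h
  refine ⟨y, Finset.disjoint_left.2 fun p hp hY => ?_⟩
  unfold gra at hp
  obtain ⟨l, -, rfl⟩ := Finset.mem_map.1 hp
  exact hy l hY

theorem unif [Fintype α] {k a : ℕ} {F : Finset (Finset α)} {x : α} (hk : 1 ≤ k) (hU : Unif k F) :
    Unif (k + a) (fam k a F x) := by
  intro B hB
  rcases (mem_fam k a F x B).1 hB with ⟨A, hA, hx, K, hK, rfl⟩ | ⟨A, hA, hx, y, rfl⟩ |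
    ⟨l, K, hK, rfl⟩
  · rw [card_mk, Finset.card_erase_of_mem hx, hU A hA, hK, Finset.card_empty]
    omega
  · rw [card_mk, hU A hA, Finset.card_empty, card_gra]
    omega
  · rw [card_mk, Finset.card_empty, hK, card_blo]
    omega

theorem inter [Fintype α] {k a : ℕ} {F : Finset (Finset α)} {x : α} (hI : Efc.Inter F) :
    Efc.Inter (fam k a F x) := by
  intro B hB B' hB' hd
  rcases (mem_fam k a F x B).1 hB with ⟨A, hA, hx, K, hK, rfl⟩ | ⟨A, hA, hx, y, rfl⟩ |
    ⟨l, K, hK, rfl⟩ <;>
  rcases (mem_fam k a F x B').1 hB' with ⟨A', hA', hx', K', hK', rfl⟩ | ⟨A', hA', hx', y', rfl⟩ |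
    ⟨l', K', hK', rfl⟩ <;>
  rw [disjoint_mk] at hd
  · exact half hK hK' hd.2.1
  · refine hI A hA A' hA' ?_
    rw [Finset.disjoint_left]
    intro z hz hz'
    exact Finset.disjoint_left.1 hd.1
      (Finset.mem_erase.2 ⟨fun h => hx' (h ▸ hz'), hz⟩) hz'
  · exact half hK hK' hd.2.1
  · refine hI A hA A' hA' ?_
    rw [Finset.disjoint_left]
    intro z hz hz'
    exact Finset.disjoint_left.1 hd.1 hz
      (Finset.mem_erase.2 ⟨fun h => hx (h ▸ hz), hz'⟩)
  · exact hI A hA A' hA' hd.1
  · exact gra_blo y l' hd.2.2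
  · exact half hK hK' hd.2.1
  · exact gra_blo y' l hd.2.2.symm
  · exact half hK hK' hd.2.1

/-- A point of every block: at least `a` points. -/
theorem card_of_meets {a k : ℕ} {Y : Finset (Fin a × Fin (k - 1))} (h : ∀ l : Fin a, ∃ j, (l, j) ∈ Y) :
    a ≤ Y.card := by
  have h1 : (Finset.univ : Finset (Fin a)) ⊆ Y.image Prod.fst := by
    intro l _
    obtain ⟨j, hj⟩ := h l
    exact Finset.mem_image.2 ⟨(l, j), hj, rfl⟩
  have h2 := Finset.card_le_card h1
  rw [Finset.card_univ, Fintype.card_fin] at h2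
  exact h2.trans Finset.card_image_le

/-- A point of every block, and a whole block: at least `(a - 1) + (k - 1)` points. -/
theorem card_of_block {a k : ℕ} {Y : Finset (Fin a × Fin (k - 1))} (h : ∀ l : Fin a, ∃ j, (l, j) ∈ Y)
    (l : Fin a) (hl : ∀ j, (l, j) ∈ Y) : (a - 1) + (k - 1) ≤ Y.card := by
  have h1 : (blo (k := k) l) ⊆ Y.filter (fun p => p.1 = l) := by
    intro p hp
    unfold blo at hp
    rw [Finset.mem_product, Finset.mem_singleton] at hp
    rw [Finset.mem_filter]
    refine ⟨?_, hp.1⟩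
    have := hl p.2
    rw [← hp.1] at this
    exact this
  have h2 := Finset.card_le_card h1
  rw [card_blo] at h2
  have h3 : (Finset.univ.erase l : Finset (Fin a)) ⊆ (Y.filter (fun p => ¬ p.1 = l)).image Prod.fst := by
    intro l' hl'
    obtain ⟨j, hj⟩ := h l'
    exact Finset.mem_image.2 ⟨(l', j), Finset.mem_filter.2 ⟨hj, (Finset.mem_erase.1 hl').1⟩, rfl⟩
  have h4 := (Finset.card_le_card h3).trans Finset.card_image_le
  rw [Finset.card_erase_of_mem (Finset.mem_univ l), Finset.card_univ, Fintype.card_fin] at h4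
  have h5 := Finset.card_filter_add_card_filter_not (s := Y) (fun p => p.1 = l)
  omega

theorem cov [Fintype α] {k a : ℕ} {F : Finset (Finset α)} {x : α} (hk : 1 ≤ k) (hU : Unif k F)
    (hI : Efc.Inter F) (hC : Cov k F) (hx : ∃ A ∈ F, x ∈ A) : Cov (k + a) (fam k a F x) := by
  intro T hT
  obtain ⟨T0, TX, TY, rfl⟩ := exists_mk k a T
  rw [card_mk] at hT
  by_cases hX : a < TX.card
  · -- `T` contains no block
    have h1 : ∀ l : Fin a, ∃ j, (l, j) ∉ TY := by
      intro l
      by_contra hcon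
      push Not at hcon
      have h2 : (blo (k := k) l) ⊆ TY := by
        intro p hp
        unfold blo at hp
        rw [Finset.mem_product, Finset.mem_singleton] at hp
        have := hcon p.2
        rw [← hp.1] at this
        exact this
      have h3 := Finset.card_le_card h2
      rw [card_blo] at h3
      omega
    obtain ⟨y, hy⟩ := exists_gra h1
    obtain ⟨A, hA, hd⟩ := hC (insert x T0) (by
      have := Finset.card_insert_le x T0
      omega)
    rw [Finset.disjoint_insert_right] at hd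
    refine ⟨mk k a A ∅ (gra y), (mem_fam _ _ _ _ _).2 (Or.inr (Or.inl ⟨A, hA, hd.1, y, rfl⟩)), ?_⟩
    rw [disjoint_mk]
    exact ⟨hd.2, Finset.disjoint_empty_left _, hy⟩
  · obtain ⟨K, hK, hKX⟩ := exists_half (not_lt.1 hX)
    by_cases hb : ∀ l : Fin a, ∃ j, (l, j) ∈ TY
    swap
    · push Not at hb
      obtain ⟨l, hl⟩ := hb
      refine ⟨mk k a ∅ K (blo l), (mem_fam _ _ _ _ _).2 (Or.inr (Or.inr ⟨l, K, hK, rfl⟩)), ?_⟩
      rw [disjoint_mk]
      refine ⟨Finset.disjoint_empty_left _, hKX, ?_⟩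
      rw [Finset.disjoint_left]
      intro p hp hpT
      unfold blo at hp
      rw [Finset.mem_product, Finset.mem_singleton] at hp
      have := hl p.2
      rw [← hp.1] at this
      exact this hpT
    by_cases h1 : ∃ A ∈ F, x ∈ A ∧ Disjoint (A.erase x) T0
    · obtain ⟨A, hA, hxA, hd⟩ := h1
      refine ⟨mk k a (A.erase x) K ∅,
        (mem_fam _ _ _ _ _).2 (Or.inl ⟨A, hA, hxA, K, hK, rfl⟩), ?_⟩
      rw [disjoint_mk]
      exact ⟨hd, hKX, Finset.disjoint_empty_left _⟩
    push Not at h1
    by_cases h2 : ∀ l : Fin a, ∃ j, (l, j) ∉ TY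
    · obtain ⟨y, hy⟩ := exists_gra h2
      by_cases h3 : ∃ A ∈ F, x ∉ A ∧ Disjoint A T0
      · obtain ⟨A, hA, hxA, hd⟩ := h3
        refine ⟨mk k a A ∅ (gra y),
          (mem_fam _ _ _ _ _).2 (Or.inr (Or.inl ⟨A, hA, hxA, y, rfl⟩)), ?_⟩
        rw [disjoint_mk]
        exact ⟨hd, Finset.disjoint_empty_left _, hy⟩
      · exfalso
        push Not at h3
        have h4 := card_of_meets hb
        obtain ⟨A, hA, hd⟩ := hC T0 (by omega)
        by_cases hxA : x ∈ A
        · exact h1 A hA hxA (Finset.disjoint_of_subset_left (Finset.erase_subset x A) hd)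
        · exact h3 A hA hxA hd
    · exfalso
      push Not at h2
      obtain ⟨l, hl⟩ := h2
      have h4 := card_of_block hb l hl
      obtain ⟨A, hA, hxA⟩ := hx
      have h5 : T0.card ≤ 1 := by
        have := l.2
        omega
      obtain ⟨v, hv1, hv2⟩ := Finset.not_disjoint_iff.1 (h1 A hA hxA)
      have h6 : T0 = {v} := by
        refine Finset.eq_singleton_iff_unique_mem.2 ⟨hv2, fun w hw => ?_⟩
        exact Finset.card_le_one.1 h5 w hw v hv2
      obtain ⟨B, hB, hBd⟩ := hC (A.erase x) (by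
        rw [Finset.card_erase_of_mem hxA, hU A hA]
        omega)
      have hxB : x ∈ B := by
        obtain ⟨w, hwA, hwB⟩ := Finset.not_disjoint_iff.1 (hI A hA B hB)
        by_cases hwx : w = x
        · exact hwx ▸ hwB
        · exact absurd (Finset.mem_erase.2 ⟨hwx, hwA⟩) (Finset.disjoint_left.1 hBd hwB)
      obtain ⟨w, hw1, hw2⟩ := Finset.not_disjoint_iff.1 (h1 B hB hxB)
      rw [h6, Finset.mem_singleton] at hw2
      subst hw2
      exact Finset.disjoint_left.1 hBd (Finset.mem_of_mem_erase hw1) hv1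

/-- The members which avoid a small set. -/
theorem avoid [Fintype α] {k a : ℕ} {F : Finset (Finset α)} {x : α} (hk : a + 2 ≤ k)
    (B : Finset (Pt α k a)) (hB : B.card ≤ a) :
    (F.filter fun A => Disjoint A (B.toLeft.erase x)).card ≤
      ((fam k a F x).filter fun A => Disjoint A B).card := by
  obtain ⟨B0, BX, BY, rfl⟩ := exists_mk k a B
  rw [card_mk] at hB
  have hleft : (mk k a B0 BX BY).toLeft = B0 := by
    unfold mk
    exact Finset.toLeft_disjSum
  rw [hleft]
  obtain ⟨K, hK, hKX⟩ := exists_half (show BX.card ≤ a by omega)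
  obtain ⟨y, hy⟩ := exists_gra (Y := BY) (fun l => by
    by_contra hcon
    push Not at hcon
    have h2 : (blo (k := k) l) ⊆ BY := by
      intro p hp
      unfold blo at hp
      rw [Finset.mem_product, Finset.mem_singleton] at hp
      have := hcon p.2
      rw [← hp.1] at this
      exact this
    have h3 := Finset.card_le_card h2
    rw [card_blo] at h3
    omega)
  refine Finset.card_le_card_of_injOn
    (fun A => if x ∈ A then mk k a (A.erase x) K ∅ else mk k a A ∅ (gra y)) ?_ ?_
  · intro A hA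
    rw [Finset.mem_coe, Finset.mem_filter] at hA
    rw [Finset.mem_coe, Finset.mem_filter]
    beta_reduce
    by_cases hxA : x ∈ A
    · rw [if_pos hxA]
      refine ⟨(mem_fam _ _ _ _ _).2 (Or.inl ⟨A, hA.1, hxA, K, hK, rfl⟩), ?_⟩
      rw [disjoint_mk]
      refine ⟨?_, hKX, Finset.disjoint_empty_left _⟩
      rw [Finset.disjoint_left]
      intro z hz hzB
      exact Finset.disjoint_left.1 hA.2 (Finset.mem_of_mem_erase hz)
        (Finset.mem_erase.2 ⟨Finset.ne_of_mem_erase hz, hzB⟩)
    · rw [if_neg hxA]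
      refine ⟨(mem_fam _ _ _ _ _).2 (Or.inr (Or.inl ⟨A, hA.1, hxA, y, rfl⟩)), ?_⟩
      rw [disjoint_mk]
      refine ⟨?_, Finset.disjoint_empty_left _, hy⟩
      rw [Finset.disjoint_left]
      intro z hz hzB
      exact Finset.disjoint_left.1 hA.2 hz
        (Finset.mem_erase.2 ⟨fun h => hxA (h ▸ hz), hzB⟩)
  · intro A _ A' _ h
    have hKne : K ≠ ∅ := by
      rw [← Finset.card_pos.trans Finset.nonempty_iff_ne_empty, hK]
      omega
    simp only at h
    by_cases hxA : x ∈ A <;> by_cases hxA' : x ∈ A'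
    · rw [if_pos hxA, if_pos hxA'] at h
      have h1 : A.erase x = A'.erase x := (Finset.disjSum_inj.1 h).1
      rw [← Finset.insert_erase hxA, ← Finset.insert_erase hxA', h1]
    · rw [if_pos hxA, if_neg hxA'] at h
      exact absurd (Finset.disjSum_inj.1 (Finset.disjSum_inj.1 h).2).1 hKne
    · rw [if_neg hxA, if_pos hxA'] at h
      exact absurd (Finset.disjSum_inj.1 (Finset.disjSum_inj.1 h).2).1.symm hKne
    · rw [if_neg hxA, if_neg hxA'] at h
      exact (Finset.disjSum_inj.1 h).1

/-- Every point other than `x` which was in a member is in a member. -/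
theorem support [Fintype α] {k a : ℕ} {F : Finset (Finset α)} {x z : α} (hk : 2 ≤ k) (hzx : z ≠ x)
    (h : ∃ A ∈ F, z ∈ A) : ∃ B ∈ fam k a F x, (Sum.inl z : Pt α k a) ∈ B := by
  obtain ⟨A, hA, hz⟩ := h
  by_cases hxA : x ∈ A
  · obtain ⟨K, hK, -⟩ := exists_half (a := a) (K := ∅) (by simp)
    refine ⟨_, (mem_fam _ _ _ _ _).2 (Or.inl ⟨A, hA, hxA, K, hK, rfl⟩), ?_⟩
    unfold mk
    rw [Finset.inl_mem_disjSum]
    exact Finset.mem_erase.2 ⟨hzx, hz⟩
  · refine ⟨_, (mem_fam _ _ _ _ _).2 (Or.inr (Or.inl ⟨A, hA, hxA,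
      fun _ => ⟨0, by omega⟩, rfl⟩)), ?_⟩
    unfold mk
    rw [Finset.inl_mem_disjSum]
    exact hz

end

end Pool.Agent.EfcD
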